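import Pool.Agent.helper55.BL.Spec

/-! # Project BL, row SHP: shortest path from `S` to `T` avoiding a vertex -/

set_option autoImplicit false

namespace Pool.Agent.helper55.BL

open Finset
open scoped Classical
open Pool.Agent.helper61.BM (Clo dg)

/-- a path avoiding `x` from `S` to `T` -/
def SHP_P {V : Type} (G : SimpleGraph V) (x : V) (S T : Finset V) (l : List V) : Prop :=
  Pa G l ∧ x ∉ l ∧ (∃ s ∈ S, l.head? = some s) ∧ (∃ t ∈ T, l.getLast? = some t)

lemma SHP_left {V : Type} {G : SimpleGraph V} {a b : List V} (h : Pa G (a ++ b)) : Pa G a :=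
  ⟨(List.nodup_append.1 h.1).1, h.2.left_of_append⟩

lemma SHP_right {V : Type} {G : SimpleGraph V} {a b : List V} (h : Pa G (a ++ b)) : Pa G b :=
  ⟨(List.nodup_append.1 h.1).2.1, h.2.right_of_append⟩

lemma SHP_ex {V : Type} [Fintype V] (G : SimpleGraph V) (hG : Two G) (x : V) (S T : Finset V)
    (hS : x ∉ S) (hT : x ∉ T) (hS1 : S.Nonempty) (hT1 : T.Nonempty) : ∃ l, SHP_P G x S T l := by
  by_contra hno
  let R : Finset V := univ.filter (fun v => ∃ l : List V, Pa G l ∧ x ∉ l ∧
    (∃ s ∈ S, l.head? = some s) ∧ l.getLast? = some v)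
  have hR : ∀ v, v ∈ R ↔ ∃ l : List V, Pa G l ∧ x ∉ l ∧
    (∃ s ∈ S, l.head? = some s) ∧ l.getLast? = some v := by
    intro v
    simp only [R, mem_filter, mem_univ, true_and]
  have hRT : ∀ v ∈ T, v ∉ R := by
    intro v hv hvR
    obtain ⟨l, h1, h2, h3, h4⟩ := (hR v).1 hvR
    exact hno ⟨l, h1, h2, h3, v, hv, h4⟩
  have hxR : x ∉ R := by
    intro h
    obtain ⟨l, h1, h2, h3, h4⟩ := (hR x).1 h
    exact h2 (List.mem_of_getLast? h4)
  have hne : R.Nonempty := by
    obtain ⟨s, hs⟩ := hS1
    refine ⟨s, (hR s).2 ⟨[s], ⟨List.nodup_singleton s, List.isChain_singleton s⟩, ?_, ⟨s, hs, rfl⟩, rfl⟩⟩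
    intro h
    rw [List.mem_singleton] at h
    exact hS (h ▸ hs)
  obtain ⟨y, hy⟩ := hT1
  obtain ⟨u, hu, v, hv, hvx, huv⟩ := hG x R hxR hne ⟨y, hRT y hy, fun h => hT (h ▸ hy)⟩
  obtain ⟨l, h1, h2, ⟨s, hs, h3⟩, h4⟩ := (hR u).1 hu
  apply hv
  rw [hR]
  by_cases hvl : v ∈ l
  · obtain ⟨a, b, rfl⟩ := List.append_of_mem hvl
    have e : a ++ v :: b = (a ++ [v]) ++ b := by simp
    rw [e] at h1
    refine ⟨a ++ [v], SHP_left h1, ?_, ⟨s, hs, ?_⟩, by simp⟩
    · intro h
      apply h2
      rw [e]
      exact List.mem_append_left _ h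
    · cases a with
      | nil => simpa using h3
      | cons c a => simpa using h3
  · refine ⟨l ++ [v], ⟨?_, ?_⟩, ?_, ⟨s, hs, ?_⟩, by simp⟩
    · rw [List.nodup_append]
      refine ⟨h1.1, List.nodup_singleton v, ?_⟩
      intro a ha b hb hab
      rw [List.mem_singleton] at hb
      subst hb
      subst hab
      exact hvl ha
    · rw [List.isChain_append]
      refine ⟨h1.2, List.isChain_singleton v, ?_⟩
      intro a ha b hb
      rw [h4] at ha
      simp only [Option.mem_def, Option.some.injEq] at ha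
      simp only [List.head?_cons, Option.mem_def, Option.some.injEq] at hb
      subst ha
      subst hb
      exact huv
    · intro h
      rcases List.mem_append.1 h with h | h
      · exact h2 h
      · rw [List.mem_singleton] at h
        exact hvx h.symm
    · cases l with
      | nil => simp at h3
      | cons c l => simpa using h3

theorem SHP : SHP_stmt := by
  intro V _ G hG x S T hS hT hS1 hT1
  have hex : ∃ n : ℕ, ∃ l, SHP_P G x S T l ∧ l.length = n := by
    obtain ⟨l, hl⟩ := SHP_ex G hG x S T hS hT hS1 hT1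
    exact ⟨l.length, l, hl, rfl⟩
  obtain ⟨l, hl, hln⟩ := Nat.find_spec hex
  have hmin : ∀ l', SHP_P G x S T l' → l.length ≤ l'.length := by
    intro l' hl'
    rw [hln]
    exact Nat.find_min' hex ⟨l', hl', rfl⟩
  obtain ⟨h1, h2, ⟨s, hs, h3⟩, ⟨t, ht, h4⟩⟩ := hl
  refine ⟨l, h1, h2, ⟨s, hs, h3⟩, ⟨t, ht, h4⟩, ?_, ?_⟩
  · intro v hv hvS
    obtain ⟨a, b, e⟩ := List.append_of_mem hv
    cases a with
    | nil => rw [e]; rfl
    | cons c a =>
      exfalso
      have hlen := hmin (v :: b) ⟨SHP_right (a := c :: a) (by rw [← e]; exact h1), fun h => h2 (by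
        rw [e]; exact List.mem_append_right _ h), ⟨v, hvS, rfl⟩, ⟨t, ht, by
          rw [e] at h4
          rwa [List.getLast?_append_of_ne_nil _ (by simp)] at h4⟩⟩
      rw [e] at hlen
      simp only [List.length_append, List.length_cons] at hlen
      omega
  · intro v hv hvT
    obtain ⟨a, b, e⟩ := List.append_of_mem hv
    cases b with
    | nil => rw [e]; simp
    | cons c b =>
      exfalso
      have e' : l = (a ++ [v]) ++ (c :: b) := by rw [e]; simp
      have hlen := hmin (a ++ [v]) ⟨SHP_left (b := c :: b) (by rw [← e']; exact h1), fun h => h2 (by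
        rw [e']; exact List.mem_append_left _ h), ⟨s, hs, by
          rw [e'] at h3
          cases a with
          | nil => simpa using h3
          | cons d a => simpa using h3⟩, ⟨v, hvT, by simp⟩⟩
      rw [e'] at hlen
      simp only [List.length_append, List.length_cons] at hlen
      omega

end Pool.Agent.helper55.BL
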